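import Pool.Agent.H92.RamseyI

/-!
Sparse graphs without large cliques and independent sets (MP_28724c_co): the maximum
independent set argument.
-/

open Finset Pool.Agent.H92

namespace Pool.Agent.H50.Ramsey

section graph
variable {V : Type} [DecidableEq V] (G : SimpleGraph V) [DecidableRel G.Adj]

/-- number of ordered adjacent pairs -/
def ee (X Y : Finset V) : ℝ := ∑ x ∈ X, ∑ y ∈ Y, ind G x y

omit [DecidableEq V] in
lemma ind_nonneg (x y : V) : 0 ≤ ind G x y := by
  unfold ind; split_ifs <;> norm_num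

omit [DecidableEq V] in
lemma ind_comm (x y : V) : ind G x y = ind G y x := by
  unfold ind; simp only [G.adj_comm]

omit [DecidableEq V] in
lemma ee_nonneg (X Y : Finset V) : 0 ≤ ee G X Y :=
  sum_nonneg fun _ _ => sum_nonneg fun _ _ => ind_nonneg G _ _

omit [DecidableEq V] in
lemma ee_comm (X Y : Finset V) : ee G X Y = ee G Y X := by
  unfold ee
  rw [sum_comm]
  exact sum_congr rfl fun _ _ => sum_congr rfl fun _ _ => ind_comm G _ _

lemma ee_sdiff_left {X A : Finset V} (h : A ⊆ X) (Y : Finset V) :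
    ee G X Y = ee G A Y + ee G (X \ A) Y := by
  unfold ee
  rw [add_comm, sum_sdiff h]

lemma ee_sdiff_right {Y A : Finset V} (h : A ⊆ Y) (X : Finset V) :
    ee G X Y = ee G X A + ee G X (Y \ A) := by
  rw [ee_comm, ee_sdiff_left G h, ee_comm G A, ee_comm G (Y \ A)]

omit [DecidableEq V] in
lemma ee_indep {A : Finset V} (h : G.IsIndepSet A) : ee G A A = 0 := by
  unfold ee
  refine sum_eq_zero fun x hx => sum_eq_zero fun y hy => ?_
  unfold ind
  rw [if_neg]
  intro hxy
  exact h hx hy hxy.ne hxy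

/-- a maximum independent subset -/
lemma exists_max_indep (T : Finset V) : ∃ A ⊆ T, G.IsIndepSet A ∧
    ∀ B ⊆ T, G.IsIndepSet B → B.card ≤ A.card := by
  classical
  have hne : (T.powerset.filter fun S : Finset V => G.IsIndepSet (S : Set V)).Nonempty :=
    ⟨∅, by simp⟩
  obtain ⟨A, hA, hmax⟩ := exists_max_image _ card hne
  rw [mem_filter, mem_powerset] at hA
  refine ⟨A, hA.1, hA.2, fun B hB hi => hmax B ?_⟩
  rw [mem_filter, mem_powerset]
  exact ⟨hB, hi⟩

/-- In a sparse graph some large vertex set has a maximum independent set with few edges to it. -/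
theorem exists_start {p t : ℝ} (hp : 0 ≤ p) (ht : 0 < t) (S : Finset V)
    (h : ee G S S < p * ((S.card : ℝ) ^ 2 - t ^ 2)) :
    ∃ T ⊆ S, t ≤ T.card ∧ ∃ A ⊆ T, G.IsIndepSet A ∧
      (∀ B ⊆ T, G.IsIndepSet B → B.card ≤ A.card) ∧
      ee G A T ≤ p * A.card * T.card := by
  induction S using Finset.strongInduction with
  | H S ih =>
    have h0 := ee_nonneg G S S
    have ht' : t ≤ S.card := by
      by_contra hlt
      push Not at hlt
      have h1 : (S.card : ℝ) ^ 2 ≤ t ^ 2 := by
        have : (0 : ℝ) ≤ S.card := by positivity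
        nlinarith
      have h2 : p * ((S.card : ℝ) ^ 2 - t ^ 2) ≤ 0 :=
        mul_nonpos_of_nonneg_of_nonpos hp (by linarith)
      linarith
    obtain ⟨A, hAS, hAi, hAm⟩ := exists_max_indep G S
    by_cases hcase : ee G A S ≤ p * A.card * S.card
    · exact ⟨S, Subset.refl _, ht', A, hAS, hAi, hAm, hcase⟩
    push Not at hcase
    have hSne : S.Nonempty := by
      rw [← card_pos]
      have : (0 : ℝ) < S.card := lt_of_lt_of_le ht ht'
      exact_mod_cast this
    have hAne : A.Nonempty := by
      obtain ⟨x, hx⟩ := hSne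
      have h1 := hAm {x} (by simpa using hx) (by simp)
      rw [card_singleton] at h1
      exact card_pos.1 h1
    have hlt : S \ A ⊂ S := by
      refine ssubset_of_subset_of_ne sdiff_subset ?_
      intro heq
      obtain ⟨x, hx⟩ := hAne
      have : x ∈ S \ A := by rw [heq]; exact hAS hx
      exact (mem_sdiff.1 this).2 hx
    have hcard : ((S \ A).card : ℝ) = S.card - A.card := by
      rw [card_sdiff_of_subset hAS, Nat.cast_sub (card_le_card hAS)]
    have e1 : ee G S S = ee G A S + ee G (S \ A) S := ee_sdiff_left G hAS S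
    have e2 : ee G (S \ A) S = ee G (S \ A) A + ee G (S \ A) (S \ A) := ee_sdiff_right G hAS _
    have e3 : ee G A S = ee G A A + ee G A (S \ A) := ee_sdiff_right G hAS _
    have e4 := ee_indep G hAi
    have e5 := ee_comm G A (S \ A)
    have hnew : ee G (S \ A) (S \ A) < p * (((S \ A).card : ℝ) ^ 2 - t ^ 2) := by
      have h5 : 0 ≤ p * (A.card : ℝ) ^ 2 := by positivity
      rw [hcard]
      nlinarith
    obtain ⟨T, hT, h1, A', hA', h2, h3, h4⟩ := ih (S \ A) hlt hnew
    exact ⟨T, hT.trans sdiff_subset, h1, A', hA', h2, h3, h4⟩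

/-- the weights of the supersets of `D` inside `A` add up to `π ^ |D|` -/
lemma sum_supersets {A D : Finset V} (hD : D ⊆ A) (x : ℝ) :
    ∑ B ∈ A.powerset with D ⊆ B, x ^ B.card * (1 - x) ^ (A.card - B.card) = x ^ D.card := by
  have h1 : (A.powerset.filter fun B => D ⊆ B) = Finset.Icc D A := by
    ext B
    rw [mem_filter, mem_powerset, mem_Icc]
    exact and_comm
  rw [h1, Finset.Icc_eq_image_powerset hD, sum_image]
  · have h2 : ∀ C ∈ (A \ D).powerset,
        x ^ (D ∪ C).card * (1 - x) ^ (A.card - (D ∪ C).card)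
          = x ^ D.card * (x ^ C.card * (1 - x) ^ ((A \ D).card - C.card)) := by
      intro C hC
      rw [mem_powerset] at hC
      have hdis : Disjoint D C :=
        Finset.disjoint_of_subset_right hC disjoint_sdiff
      rw [card_union_of_disjoint hdis, card_sdiff_of_subset hD, pow_add, Nat.sub_sub]
      ring
    rw [sum_congr rfl h2, ← mul_sum, Finset.sum_pow_mul_eq_add_pow]
    have : x + (1 - x) = 1 := by ring
    rw [this, one_pow, mul_one]
  · intro B hB C hC hBC
    simp only [coe_powerset, Set.mem_preimage, Set.mem_powerset_iff, coe_subset] at hB hC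
    have hdB : Disjoint D B := Finset.disjoint_of_subset_right hB disjoint_sdiff
    have hdC : Disjoint D C := Finset.disjoint_of_subset_right hC disjoint_sdiff
    have h3 : (D ∪ B) \ D = (D ∪ C) \ D := by
      have : D ∪ B = D ∪ C := hBC
      rw [this]
    rw [union_sdiff_cancel_left hdB, union_sdiff_cancel_left hdC] at h3
    exact h3

/-- the weighted count -/
lemma weighted_count {A T : Finset V} {x K w : ℝ} (hx0 : 0 ≤ x) (hx1 : x ≤ 1)
    (h : ∀ B ⊆ A, ((T.filter fun y => A.filter (G.Adj y) ⊆ B).card : ℝ) ≤ K * w ^ B.card) :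
    ∑ y ∈ T, x ^ (A.filter (G.Adj y)).card ≤ K * (1 - x + x * w) ^ A.card := by
  have h1 : ∀ y ∈ T, x ^ (A.filter (G.Adj y)).card
      = ∑ B ∈ A.powerset, (if A.filter (G.Adj y) ⊆ B then
          x ^ B.card * (1 - x) ^ (A.card - B.card) else 0) := by
    intro y _
    rw [← sum_filter, sum_supersets (filter_subset _ _)]
  rw [sum_congr rfl h1, sum_comm]
  have h2 : ∀ B ∈ A.powerset, ∑ y ∈ T, (if A.filter (G.Adj y) ⊆ B then
          x ^ B.card * (1 - x) ^ (A.card - B.card) else 0)
      ≤ K * ((x * w) ^ B.card * (1 - x) ^ (A.card - B.card)) := by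
    intro B hB
    rw [mem_powerset] at hB
    rw [← sum_filter, sum_const, nsmul_eq_mul]
    have h3 := h B hB
    have h4 : 0 ≤ x ^ B.card * (1 - x) ^ (A.card - B.card) := by
      have : 0 ≤ 1 - x := by linarith
      positivity
    calc _ ≤ K * w ^ B.card * (x ^ B.card * (1 - x) ^ (A.card - B.card)) :=
          mul_le_mul_of_nonneg_right h3 h4
      _ = _ := by rw [mul_pow]; ring
  refine (sum_le_sum h2).trans ?_
  rw [← mul_sum, Finset.sum_pow_mul_eq_add_pow]
  apply le_of_eq
  congr 2
  ring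

/-- convexity of the exponential function -/
lemma jensen {ι : Type*} (Y : Finset ι) (d : ι → ℕ) {l x : ℝ} (hl : 0 ≤ l)
    (hd : ∑ y ∈ Y, (d y : ℝ) ≤ x * Y.card) :
    (Y.card : ℝ) * Real.exp (-(l * x)) ≤ ∑ y ∈ Y, Real.exp (-l) ^ d y := by
  have h1 : ∀ y ∈ Y, Real.exp (-(l * x)) * (1 - l * (d y - x)) ≤ Real.exp (-l) ^ d y := by
    intro y _
    rw [← Real.exp_nat_mul]
    have h2 : Real.exp (d y * -l) = Real.exp (-(l * x)) * Real.exp (-(l * (d y - x))) := by
      rw [← Real.exp_add]; congr 1; ring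
    rw [h2]
    have h3 := Real.add_one_le_exp (-(l * (d y - x)))
    exact mul_le_mul_of_nonneg_left (by linarith) (Real.exp_pos _).le
  refine le_trans ?_ (sum_le_sum h1)
  rw [← mul_sum, mul_comm]
  apply mul_le_mul_of_nonneg_left _ (Real.exp_pos _).le
  rw [sum_sub_distrib, ← mul_sum, sum_sub_distrib]
  simp only [sum_const, nsmul_eq_mul, mul_one]
  have : l * (∑ y ∈ Y, (d y : ℝ) - Y.card * x) ≤ 0 :=
    mul_nonpos_of_nonneg_of_nonpos hl (by linarith [mul_comm x (Y.card : ℝ)])
  linarith

/-- vertices whose neighbours in the maximum independent set `A` lie in `B` span no independent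
set with more than `|B|` vertices -/
lemma noB_of_max {A T B : Finset V} (hAT : A ⊆ T) (hAi : G.IsIndepSet A)
    (hmax : ∀ B ⊆ T, G.IsIndepSet B → B.card ≤ A.card) (hB : B ⊆ A) :
    NoB G (B.card + 1) ((T \ A).filter fun y => A.filter (G.Adj y) ⊆ B) := by
  intro S hS hcl
  rw [SimpleGraph.isNClique_compl] at hcl
  have hST : S ⊆ T \ A := hS.trans (filter_subset _ _)
  have hdis : Disjoint S (A \ B) :=
    Finset.disjoint_of_subset_left hST
      (Finset.disjoint_of_subset_right sdiff_subset sdiff_disjoint)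
  have hcross : ∀ a ∈ S, ∀ b ∈ A \ B, ¬ G.Adj a b := by
    intro a ha b hb hab
    have ha' := hS ha
    rw [mem_filter] at ha'
    rw [mem_sdiff] at hb
    exact hb.2 (ha'.2 (by
      rw [mem_filter]
      exact ⟨hb.1, hab⟩))
  have hind : G.IsIndepSet ((S ∪ (A \ B) : Finset V) : Set V) := by
    intro a ha b hb hne hab
    rw [mem_coe, mem_union] at ha hb
    rcases ha with ha | ha <;> rcases hb with hb | hb
    · exact hcl.isIndepSet ha hb hne hab
    · exact hcross a ha b hb hab
    · exact hcross b hb a ha hab.symm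
    · exact hAi (mem_sdiff.1 ha).1 (mem_sdiff.1 hb).1 hne hab
  have h1 := hmax (S ∪ (A \ B)) (union_subset (hST.trans sdiff_subset)
    (sdiff_subset.trans hAT)) hind
  rw [card_union_of_disjoint hdis, hcl.card_eq, card_sdiff_of_subset hB] at h1
  have := card_le_card hB
  omega

end graph

/-- the finite inequality behind the bound -/
theorem card_bound {u v ε C l : ℝ} (hl : 0 ≤ l)
    (hG : ∀ (V : Type) [DecidableEq V] (G : SimpleGraph V) (X : Finset V) (k m : ℕ),
      NoR G k X → NoB G m X → (X.card : ℝ) ≤ C * Real.exp (ε * (k + m) + k * v + m * u))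
    {V : Type} [DecidableEq V] (G : SimpleGraph V) [DecidableRel G.Adj]
    {k : ℕ} {A T : Finset V} (hk : NoR G k T) (hAT : A ⊆ T) (hAi : G.IsIndepSet A)
    (hmax : ∀ B ⊆ T, G.IsIndepSet B → B.card ≤ A.card) {p'' : ℝ}
    (hdeg : ee G A T ≤ p'' * A.card * (T \ A).card) :
    ((T \ A).card : ℝ) * Real.exp (-(l * (p'' * A.card)))
      ≤ C * Real.exp (ε * (k + 1) + k * v + u) *
        (1 - Real.exp (-l) + Real.exp (-l) * Real.exp (u + ε)) ^ A.card := by
  have hx1 : Real.exp (-l) ≤ 1 := by
    rw [Real.exp_le_one_iff]; linarith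
  have h1 : ∀ B ⊆ A, (((T \ A).filter fun y => A.filter (G.Adj y) ⊆ B).card : ℝ)
      ≤ C * Real.exp (ε * (k + 1) + k * v + u) * Real.exp (u + ε) ^ B.card := by
    intro B hB
    have h2 := noB_of_max G hAT hAi hmax hB
    have h3 : NoR G k ((T \ A).filter fun y => A.filter (G.Adj y) ⊆ B) :=
      fun S hS => hk S (hS.trans ((filter_subset _ _).trans sdiff_subset))
    have h4 := hG V G _ k (B.card + 1) h3 h2
    refine h4.trans (le_of_eq ?_)
    rw [mul_assoc, ← Real.exp_nat_mul, ← Real.exp_add]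
    congr 2
    push_cast
    ring
  have h2 := weighted_count G (A := A) (T := T \ A) (Real.exp_pos (-l)).le hx1 h1
  refine le_trans ?_ h2
  have h3 : ∑ y ∈ T \ A, ((A.filter (G.Adj y)).card : ℝ) ≤ (p'' * A.card) * (T \ A).card := by
    refine le_trans (le_of_eq ?_) hdeg
    rw [ee_sdiff_right G hAT, ee_indep G hAi, zero_add, ee_comm]
    unfold ee
    refine sum_congr rfl fun y _ => ?_
    unfold ind
    rw [card_filter]
    push_cast
    rfl
  exact jensen (T \ A) (fun y => (A.filter (G.Adj y)).card) hl h3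

/-- **The maximum independent set bound.** If `R(k, m) ≤ exp (k v + m u + o(k + m))` then every
graph on `exp (c k)` vertices with density at most `p` has a clique or an independent set of size
`k`, provided that `c > v + log (1 - x + x e^u) - p log x` for some `x` in `(0, 1]`; here
`x = exp (-l)`. -/
theorem sparse_of_good {u v p l c : ℝ} (hg : Good v u) (hu : 0 ≤ u) (hv : 0 ≤ v) (hp : 0 < p)
    (hl : 0 ≤ l)
    (hc : v + Real.log (1 - Real.exp (-l) + Real.exp (-l) * Real.exp u) + p * l < c) :
    ∃ δ : ℝ, 0 < δ ∧ ∃ k0 : ℕ, ∀ k : ℕ, k0 ≤ k →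
      ∀ (V : Type) [Fintype V] [DecidableEq V] (G : SimpleGraph V) [DecidableRel G.Adj],
        Real.exp (c * k) ≤ Fintype.card V →
        ∑ x, ∑ y, ind G x y ≤ (p + δ) * (Fintype.card V : ℝ) * Fintype.card V →
        (∃ S, G.IsNClique k S) ∨ (∃ S, Gᶜ.IsNClique k S) := by
  set x : ℝ := Real.exp (-l) with hx
  have hx0 : 0 < x := Real.exp_pos _
  have hx1 : x ≤ 1 := by rw [hx, Real.exp_le_one_iff]; linarith
  have heu : 1 ≤ Real.exp u := Real.one_le_exp hu
  have hbr : 1 ≤ 1 - x + x * Real.exp u := by nlinarith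
  have hlog0 : 0 ≤ Real.log (1 - x + x * Real.exp u) := Real.log_nonneg hbr
  have hc0 : 0 < c := by
    have : 0 ≤ p * l := by positivity
    linarith
  set c0 : ℝ := v + Real.log (1 - x + x * Real.exp u) + p * l with hc0'
  -- the small parameter
  set ε : ℝ := min 1 ((c - c0) / (2 * (2 + l))) with hε
  have hε0 : 0 < ε := by
    rw [hε]
    refine lt_min one_pos ?_
    have : 0 < c - c0 := by linarith
    positivity
  have hε1 : ε ≤ 1 := min_le_left _ _
  have hεc : ε * (2 + l) ≤ (c - c0) / 2 := by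
    have h1 : ε ≤ (c - c0) / (2 * (2 + l)) := min_le_right _ _
    have h2 : 0 < 2 + l := by linarith
    calc ε * (2 + l) ≤ (c - c0) / (2 * (2 + l)) * (2 + l) :=
          mul_le_mul_of_nonneg_right h1 h2.le
      _ = (c - c0) / 2 := by field_simp
  set θ : ℝ := ε / (8 * (p + ε)) with hθ
  have hθ0 : 0 < θ := by positivity
  have hθ1 : θ ≤ 1 := by
    rw [hθ, div_le_one (by positivity)]; linarith
  obtain ⟨C, hC, hG⟩ := hg ε hε0
  set p' : ℝ := p + ε / 2 with hp'
  set p'' : ℝ := p + ε with hp''
  have hp'0 : 0 < p' := by positivity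
  have hp''0 : 0 < p'' := by positivity
  -- the constants
  set g : ℝ := (c - c0) / 2 with hgdef
  have hg0 : 0 < g := by rw [hgdef]; linarith
  set K : ℝ := Real.log C + ε + u - Real.log (θ * (p' / p'')) with hK
  set τ : ℝ := (1 - p' / p'') * θ with hτ
  have hpp : p' / p'' < 1 := by
    rw [div_lt_one hp''0, hp', hp'']; linarith
  have hτ0 : 0 < τ := by
    rw [hτ]
    have : 0 < 1 - p' / p'' := by linarith
    positivity
  obtain ⟨k1, hk1⟩ := exists_nat_gt (2 / (τ * c ^ 2))
  obtain ⟨k2, hk2⟩ := exists_nat_gt (K / g)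
  refine ⟨ε / 4, by positivity, max (max k1 k2) 1, ?_⟩
  intro k hk V _ _ G _ hN hd
  by_contra hcon
  push Not at hcon
  obtain ⟨hR, hB⟩ := hcon
  set N : ℝ := (Fintype.card V : ℝ) with hNdef
  have hkk1 : (k1 : ℝ) ≤ k := by
    exact_mod_cast (le_trans (le_max_left _ _) (le_trans (le_max_left _ _) hk))
  have hkk2 : (k2 : ℝ) ≤ k := by
    exact_mod_cast (le_trans (le_max_right _ _) (le_trans (le_max_left _ _) hk))
  have hkpos : 0 < k := lt_of_lt_of_le one_pos (le_trans (le_max_right _ _) hk)
  have hkR : (0 : ℝ) < k := by exact_mod_cast hkpos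
  have hN0 : 0 < N := lt_of_lt_of_le (Real.exp_pos _) hN
  have hkN : (k : ℝ) ≤ τ * N := by
    have h1 : 1 + c * k + (c * k) ^ 2 / 2 ≤ Real.exp (c * k) :=
      Real.quadratic_le_exp_of_nonneg (by positivity)
    have h2 : (c * k) ^ 2 / 2 ≤ N := by
      have : 0 ≤ c * k := by positivity
      linarith
    have h3 : 2 / (τ * c ^ 2) < k := lt_of_lt_of_le hk1 hkk1
    rw [div_lt_iff₀ (by positivity)] at h3
    calc (k : ℝ) = k * 2 / 2 := by ring
      _ ≤ k * (k * (τ * c ^ 2)) / 2 := by gcongr
      _ = τ * ((c * k) ^ 2 / 2) := by ring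
      _ ≤ τ * N := by gcongr
  -- the start
  have hstart : ee G univ univ
      < p' * (((univ : Finset V).card : ℝ) ^ 2 - (θ * N) ^ 2) := by
    have h1 : ee G univ univ ≤ (p + ε / 4) * N * N := hd
    have h2 : p' * θ ^ 2 < ε / 4 := by
      have h3 : θ ^ 2 ≤ θ := by nlinarith
      have h4 : p' * θ ^ 2 ≤ p'' * θ := by
        have : p' ≤ p'' := by rw [hp', hp'']; linarith
        calc p' * θ ^ 2 ≤ p'' * θ ^ 2 := by gcongr
          _ ≤ p'' * θ := by gcongr
      have h5 : p'' * θ = ε / 8 := by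
        rw [hθ, hp'']; field_simp
      linarith
    rw [card_univ]
    have h6 : (p + ε / 4) * N * N < p' * (N ^ 2 - (θ * N) ^ 2) := by
      have h7 : p' * (N ^ 2 - (θ * N) ^ 2) - (p + ε / 4) * N * N
          = (ε / 4 - p' * θ ^ 2) * (N * N) := by
        rw [hp']; ring
      have h8 : 0 < (ε / 4 - p' * θ ^ 2) * (N * N) := by
        have : 0 < ε / 4 - p' * θ ^ 2 := by linarith
        positivity
      linarith
    exact lt_of_le_of_lt h1 h6
  obtain ⟨T, -, hT, A, hAT, hAi, hAm, hAe⟩ :=
    exists_start G hp'0.le (by positivity : 0 < θ * N) univ hstart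
  have hAk : A.card < k := by
    by_contra hle
    push Not at hle
    obtain ⟨S, hS, hSc⟩ := exists_subset_card_eq hle
    refine hB S ?_
    rw [SimpleGraph.isNClique_compl]
    exact ⟨hAi.mono (by exact_mod_cast hS), hSc⟩
  have hAk' : (A.card : ℝ) ≤ k := by exact_mod_cast hAk.le
  have hT0 : (0 : ℝ) < T.card := lt_of_lt_of_le (by positivity) hT
  have hcard : ((T \ A).card : ℝ) = T.card - A.card := by
    rw [card_sdiff_of_subset hAT, Nat.cast_sub (card_le_card hAT)]
  have hTA : p' / p'' * T.card ≤ ((T \ A).card : ℝ) := by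
    rw [hcard]
    have h1 : (A.card : ℝ) ≤ (1 - p' / p'') * T.card := by
      calc (A.card : ℝ) ≤ τ * N := hAk'.trans hkN
        _ = (1 - p' / p'') * (θ * N) := by rw [hτ]; ring
        _ ≤ (1 - p' / p'') * T.card := by
          have : 0 ≤ 1 - p' / p'' := by linarith
          gcongr
    linarith
  have hTA0 : (0 : ℝ) < (T \ A).card := lt_of_lt_of_le (by positivity) hTA
  have hdeg : ee G A T ≤ p'' * A.card * (T \ A).card := by
    refine hAe.trans ?_
    have h1 : p' * T.card ≤ p'' * (T \ A).card := by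
      have h2 := mul_le_mul_of_nonneg_left hTA hp''0.le
      have h3 : p'' * (p' / p'' * T.card) = p' * T.card := by field_simp
      linarith
    have h4 : (0 : ℝ) ≤ A.card := by positivity
    nlinarith
  have hkR' : NoR G k T := fun S _ => hR S
  have hmain := card_bound hl hG G hkR' hAT hAi hAm hdeg
  -- take logarithms
  have hbr' : 1 ≤ 1 - x + x * Real.exp (u + ε) := by
    have : 1 ≤ Real.exp (u + ε) := Real.one_le_exp (by linarith)
    nlinarith
  have hlogs := Real.log_le_log (by positivity) hmain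
  rw [Real.log_mul hTA0.ne' (Real.exp_pos _).ne', Real.log_exp, ← hx,
    Real.log_mul (by positivity) (by positivity), Real.log_mul hC.ne' (Real.exp_pos _).ne',
    Real.log_exp, Real.log_pow] at hlogs
  have hb2 : Real.log (1 - x + x * Real.exp (u + ε))
      ≤ ε + Real.log (1 - x + x * Real.exp u) := by
    have h1 : 1 - x + x * Real.exp (u + ε) ≤ Real.exp ε * (1 - x + x * Real.exp u) := by
      rw [Real.exp_add]
      have : 1 ≤ Real.exp ε := Real.one_le_exp hε0.le
      nlinarith
    have h2 := Real.log_le_log (by linarith) h1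
    rwa [Real.log_mul (Real.exp_pos _).ne' (by linarith), Real.log_exp] at h2
  have hb3 : 0 ≤ Real.log (1 - x + x * Real.exp (u + ε)) := Real.log_nonneg hbr'
  have hlogT : Real.log (θ * (p' / p'')) + c * k ≤ Real.log ((T \ A).card : ℝ) := by
    have h1 : θ * (p' / p'') * Real.exp (c * k) ≤ ((T \ A).card : ℝ) := by
      refine le_trans ?_ hTA
      calc θ * (p' / p'') * Real.exp (c * k) ≤ θ * (p' / p'') * N := by gcongr
        _ = p' / p'' * (θ * N) := by ring
        _ ≤ p' / p'' * T.card := by gcongr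
    have h2 := Real.log_le_log (by positivity) h1
    rwa [Real.log_mul (by positivity) (Real.exp_pos _).ne', Real.log_exp] at h2
  have hfin : (A.card : ℝ) * (Real.log (1 - x + x * Real.exp (u + ε)) + l * p'')
      ≤ k * (ε + Real.log (1 - x + x * Real.exp u) + l * p'') := by
    have h1 : 0 ≤ l * p'' := by positivity
    calc (A.card : ℝ) * (Real.log (1 - x + x * Real.exp (u + ε)) + l * p'')
        ≤ k * (Real.log (1 - x + x * Real.exp (u + ε)) + l * p'') := by gcongr
      _ ≤ _ := by gcongr
  have hk2' : K / g < k := lt_of_lt_of_le hk2 hkk2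
  rw [div_lt_iff₀ hg0] at hk2'
  have hsum : ε + v + (ε + Real.log (1 - x + x * Real.exp u) + l * p'') ≤ c - g := by
    rw [hp'', hgdef]
    have : ε + v + (ε + Real.log (1 - x + x * Real.exp u) + l * (p + ε))
        = c0 + ε * (2 + l) := by rw [hc0']; ring
    linarith
  have hsumk := mul_le_mul_of_nonneg_left hsum hkR.le
  rw [hK] at hk2'
  nlinarith

end Pool.Agent.H50.Ramsey
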