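import Pool.Agent.H92.RamseyG
import Pool.Agent.H50.Ramsey.Indep

/-!
Sparse graphs without large cliques and independent sets (MP_28724c_co): consequences of the
theorem `T1`.
-/

open Finset Pool.Agent.H92 Pool.Agent.H92.D

namespace Pool.Agent.H50.Ramsey

/-- eventual domination of the error terms -/
lemma exists_large {C1 K ρ : ℝ} (hρ : 0 < ρ) (hC1 : 0 ≤ C1) :
    ∃ k0 : ℕ, ∀ k : ℕ, k0 ≤ k →
      C1 * (1 + Real.sqrt (2 * k * Real.log 2)) + K < ρ * k := by
  have hlog2 : 0 < Real.log 2 := Real.log_pos (by norm_num)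
  set δ : ℝ := ρ / (4 * (C1 + 1) * Real.log 2) with hδ
  have hδ0 : 0 < δ := by positivity
  obtain ⟨k0, hk0⟩ := exists_nat_gt ((C1 * (1 + 1 / (4 * δ)) + |K|) / (ρ / 2))
  refine ⟨k0, fun k hk => ?_⟩
  have hk' : (k0 : ℝ) ≤ k := by exact_mod_cast hk
  rw [div_lt_iff₀ (by positivity)] at hk0
  have h1 := sqrt_le_lin (y := 2 * k * Real.log 2) (by positivity) hδ0
  have h3 : C1 * Real.sqrt (2 * k * Real.log 2)
      ≤ C1 * (δ * (2 * k * Real.log 2) + 1 / (4 * δ)) :=
    mul_le_mul_of_nonneg_left h1 hC1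
  have h4 : C1 * (δ * (2 * k * Real.log 2)) = ρ / 2 * k * (C1 / (C1 + 1)) := by
    rw [hδ]; field_simp; ring
  have h5 : C1 / (C1 + 1) ≤ 1 := by
    rw [div_le_one (by linarith)]; linarith
  have h6 : ρ / 2 * k * (C1 / (C1 + 1)) ≤ ρ / 2 * k * 1 := by
    apply mul_le_mul_of_nonneg_left h5; positivity
  have h7 := le_abs_self K
  nlinarith

lemma ind_compl_sum {V : Type} [Fintype V] [DecidableEq V] (G : SimpleGraph V)
    [DecidableRel G.Adj] :
    ∑ x, ∑ y, ind Gᶜ x y = (Fintype.card V : ℝ) ^ 2 - Fintype.card V - ∑ x, ∑ y, ind G x y := by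
  have h1 : ∀ x y : V, ind Gᶜ x y = 1 - (if x = y then 1 else 0) - ind G x y := by
    intro x y
    unfold ind
    by_cases h : x = y
    · subst h; simp
    · by_cases h2 : G.Adj x y <;> simp [SimpleGraph.compl_adj, h, h2]
  simp_rw [h1, sum_sub_distrib]
  simp
  ring

/-- **The bound from the potential theorem.** -/
theorem sparse_of_T1P {P : ℝ → ℝ → ℝ → ℝ → Prop} (hT : T1P P) {a q L M v p c : ℝ}
    (ha : 0 < a) (ha1 : a ≤ 1) (hq : 0 < q) (hq1 : q < 1) (hqp : q < 1 - p) (hL : 0 ≤ L)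
    (hM : 0 ≤ M) (hcert : P a q L M) (hgood : Good L v) (hc0 : 0 < c)
    (hkey : L + M + v < c * (1 + a)) :
    ∃ δ : ℝ, 0 < δ ∧ ∃ k0 : ℕ, ∀ k : ℕ, k0 ≤ k →
      ∀ (V : Type) [Fintype V] [DecidableEq V] (G : SimpleGraph V) [DecidableRel G.Adj],
        Real.exp (c * k) ≤ Fintype.card V →
        ∑ x, ∑ y, ind G x y ≤ (p + δ) * (Fintype.card V : ℝ) * Fintype.card V →
        (∃ S, G.IsNClique k S) ∨ (∃ S, Gᶜ.IsNClique k S) := by
  have hlog2 : 0 < Real.log 2 := Real.log_pos (by norm_num)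
  set η : ℝ := (1 - p - q) / 3 with hη
  have hη0 : 0 < η := by rw [hη]; linarith
  set ρ : ℝ := (c * (1 + a) - (L + M + v)) / 4 with hρ
  have hρ0 : 0 < ρ := by rw [hρ]; linarith
  obtain ⟨C1, hC1, hT1⟩ := hT a q L M η ha ha1 hq hq1 hL hM hη0 hcert
  obtain ⟨C', hC', hG⟩ := hgood (ρ / 2) (by positivity)
  obtain ⟨k0, hk0⟩ := exists_large (C1 := C1) (K := Real.log C' + L) (ρ := ρ) hρ0 hC1
  obtain ⟨k1, hk1⟩ := exists_nat_gt (1 / (η * c))
  refine ⟨η, hη0, max k0 k1 + 1, ?_⟩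
  intro k hk V _ _ G _ hN hd
  by_contra hcon
  push Not at hcon
  obtain ⟨hc1, hc2⟩ := hcon
  have hR : NoR Gᶜ k univ := fun S _ => hc2 S
  have hBl : NoB Gᶜ k univ := fun S _ => by rw [compl_compl]; exact hc1 S
  have hk0' : k0 ≤ k := by
    have := le_max_left k0 k1
    omega
  have hk1' : (k1 : ℝ) ≤ k := by
    have : k1 ≤ k := by
      have := le_max_right k0 k1
      omega
    exact_mod_cast this
  have hkpos : 0 < k := by omega
  have hk' : (0 : ℝ) < k := by exact_mod_cast hkpos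
  have hNpos : (0 : ℝ) < Fintype.card V := lt_of_lt_of_le (Real.exp_pos _) hN
  have hNpos' : 0 < Fintype.card V := by exact_mod_cast hNpos
  set n : ℝ := Real.log (Fintype.card V) with hn
  have hnc : c * k ≤ n := by
    rw [hn, Real.le_log_iff_exp_le hNpos]
    exact hN
  have hesb : ((univ : Finset V).card : ℝ) + 1 ≤ Real.exp (k * Real.log 2 + k * Real.log 2) := by
    refine es_bound hlog2.le hlog2.le ?_ Gᶜ (k + k) k k univ rfl hR hBl
    rw [Real.exp_neg, Real.exp_log (by norm_num)]; norm_num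
  rw [card_univ] at hesb
  have hn2 : n ≤ 2 * k * Real.log 2 := by
    have h1 := Real.log_le_log hNpos (by linarith : (Fintype.card V : ℝ)
      ≤ Real.exp (k * Real.log 2 + k * Real.log 2))
    rw [Real.log_exp] at h1
    linarith
  have hηN : 1 ≤ η * Fintype.card V := by
    have h1 : c * k + 1 ≤ Real.exp (c * k) := Real.add_one_le_exp _
    have h2 : 1 / (η * c) < k := lt_of_lt_of_le hk1 hk1'
    rw [div_lt_iff₀ (by positivity)] at h2
    have h3 : c * k ≤ Fintype.card V := by linarith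
    have h4 := mul_le_mul_of_nonneg_left h3 hη0.le
    nlinarith
  have hdens : (q + η) * ((univ : Finset V).card : ℝ) * (univ : Finset V).card
      ≤ ∑ x ∈ univ, ∑ y ∈ univ, ind Gᶜ x y := by
    rw [ind_compl_sum, card_univ]
    have h1 : q + η = 1 - p - 2 * η := by rw [hη]; ring
    rw [h1]
    nlinarith
  have hmain := hT1 V Gᶜ univ univ (Fintype.card V) k k
    (C' * Real.exp (ρ / 2 * (2 * k) + k * v)) ?_ ?_ (by rw [card_univ]) (by rw [card_univ])
    (by rwa [union_self]) hBl ?_ hdens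
  · rw [Real.log_mul hC'.ne' (by positivity), Real.log_exp, card_univ, ← hn] at hmain
    have hsq : Real.sqrt n ≤ Real.sqrt (2 * k * Real.log 2) := Real.sqrt_le_sqrt hn2
    have hC1s : C1 * (1 + Real.sqrt n)
        ≤ C1 * (1 + Real.sqrt (2 * k * Real.log 2)) := by gcongr
    have hk1 := hk0 k hk0'
    have h8 : c * k * (1 + a) ≤ n * (1 + a) :=
      mul_le_mul_of_nonneg_right hnc (by linarith)
    have h9 : c * k * (1 + a) = k * (4 * ρ + (L + M + v)) := by
      rw [hρ]; ring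
    nlinarith
  · exact univ_nonempty_iff.2 (Fintype.card_pos_iff.1 hNpos')
  · exact univ_nonempty_iff.2 (Fintype.card_pos_iff.1 hNpos')
  · intro j hj Z' hZ' hRZ
    have h2 := hG V Gᶜ Z' j k hRZ (NoB_mono hBl hZ')
    rw [mul_assoc, ← Real.exp_add]
    refine h2.trans ?_
    have : Real.exp (ρ / 2 * (j + k) + j * L + k * v)
        ≤ Real.exp (ρ / 2 * (2 * k) + k * v + j * L) := by
      apply Real.exp_le_exp.2
      have h3 : (j : ℝ) ≤ k := by exact_mod_cast hj
      have := mul_le_mul_of_nonneg_left h3 (by positivity : 0 ≤ ρ / 2)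
      linarith
    gcongr

end Pool.Agent.H50.Ramsey
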