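import Pool.Agent.H56.Ramsey.Family
import Pool.Agent.H95.Ramsey.Rows
import Pool.Agent.H50.Ramsey.Sparse

/-!
Sparse graphs without large cliques and independent sets (MP_28724c_co): certificates for twelve
densities.
-/

open Finset Pool.Agent.H92 Pool.Agent.H56.Ramsey Pool.Agent.H56.Ramsey.Iv

namespace Pool.Agent.H50.Ramsey

/-- the property of the pair `(p, b)` that is proved below -/
def SparseGood (p b : ℝ) : Prop :=
  ∃ δ : ℝ, 0 < δ ∧ ∃ k0 : ℕ, ∀ k : ℕ, k0 ≤ k →
    ∀ (V : Type) [Fintype V] [DecidableEq V] (G : SimpleGraph V) [DecidableRel G.Adj],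
      b ^ k ≤ (Fintype.card V : ℝ) →
      ∑ x, ∑ y, ind G x y ≤ (p + δ) * (Fintype.card V : ℝ) * Fintype.card V →
      (∃ S, G.IsNClique k S) ∨ (∃ S, Gᶜ.IsNClique k S)

/-- a row of the first kind: density `p`, base `b`, lower bound `cc` of `log b`, density parameter
`q < 1 - p`, the parameters `a`, `M`, the line `(z, zb)` and the certificate; everything is scaled
by `10^18` -/
structure TA where
  /-- the density -/
  p : ℤ
  /-- the base -/
  b : ℤ
  /-- lower bound for the logarithm of the base -/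
  cc : ℤ
  /-- density of the other colour -/
  q : ℤ
  /-- parameter -/
  a : ℤ
  /-- parameter -/
  M : ℤ
  /-- line -/
  z : ℕ
  /-- mirrored -/
  zb : Bool
  /-- certificate -/
  c : CD

/-- a row of the second kind: density `p`, base `b`, lower bound `cc` of `log b`, the parameter
`l`, an upper bound `lw` of `log (1 - x + x e^u)`, `x = e^(-l)`, and the line -/
structure TB where
  /-- the density -/
  p : ℤ
  /-- the base -/
  b : ℤ
  /-- lower bound for the logarithm of the base -/
  cc : ℤ
  /-- parameter -/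
  l : ℤ
  /-- parameter -/
  lw : ℤ
  /-- line -/
  z : ℕ
  /-- mirrored -/
  zb : Bool

/-- the rows of the first kind -/
def rowsA : List TA := [
  ⟨250000000000000000, 2838000000000000000, 1043099578637851008, 749999999000000000, 654200000000000000, 355642552658572800, 74, true,
    ⟨176088119738213952, 264860062056181280, 248295347425951424, 744886038305128832, 725959787127337856, 661377122956425472⟩⟩,
  ⟨300000000000000000, 2929000000000000000, 1074661067745596288, 699999999000000000, 614400000000000000, 354395542737913664, 72, true,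
    ⟨182905229795110464, 274949316708409952, 283402173626500160, 661271735312920576, 678121678019671552, 708401897262917888⟩⟩,
  ⟨350000000000000000, 3033000000000000000, 1109552228606444032, 649999999000000000, 570100000000000064, 349452256510866944, 70, true,
    ⟨190012179316933248, 279006910191230688, 316778752008734336, 588303394001700608, 631677388191288320, 758644425977565184⟩⟩,
  ⟨400000000000000000, 3152000000000000000, 1148037171895632768, 599999999000000000, 508000000000000000, 332281027520771776, 69, true,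
    ⟨197720177320413088, 273594498389384000, 344953081226454592, 517429619683725120, 583965704966454144, 815727038984113152⟩⟩,
  ⟨450000000000000000, 3291000000000000000, 1191191469861202944, 549999999000000000, 450100000000000000, 315073653638445376, 67, true,
    ⟨211735927543101600, 264532877836363136, 371995918670357824, 454661676537864960, 537146776036069056, 878064113520465152⟩⟩,
  ⟨490000000000000000, 3420000000000000000, 1229640550974513920, 509999999000000000, 389000000000000000, 288903453916963456, 66, true,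
    ⟨229875542667508512, 249133435723011616, 386386561062219520, 402157439496302016, 497605234484418048, 936454916991622144⟩⟩]

/-- the rows of the second kind -/
def rowsB : List TB := [
  ⟨20000000000000000, 1216000000000000000, 195566783443975232, 6825057467081943040, 20202707417519472, 1, false⟩,
  ⟨44000000000000000, 1413000000000000000, 345715103602390400, 5712759389317951488, 44997366030735720, 8, false⟩,
  ⟨50000000000000000, 1461000000000000000, 379121132668562432, 5455301250013091840, 51293294487550480, 10, false⟩,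
  ⟨100000000000000000, 1846000000000000000, 613021135980660480, 4046504494141560320, 105360515757826352, 23, false⟩,
  ⟨150000000000000000, 2208000000000000000, 792087128314848896, 3162804186799258624, 162518929597774944, 35, false⟩,
  ⟨200000000000000000, 2542000000000000000, 932951172667262208, 2500145995733492736, 223143551414209760, 47, false⟩]

/-- the check of a row of the first kind -/
def chkA (D : List LD) (d : TA) : Bool :=
  decide (d.z < D.length) && decide (0 < d.a) && decide (d.a ≤ SC) && decide (0 ≤ d.M) &&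
  decide (0 ≤ gu D d.z d.zb) && decide (0 < d.q) && decide (d.q < SC) &&
  decide (d.q < SC - d.p) && decide (0 < d.cc) &&
  Iv.ok (Iv.pt d.cc) && decide ((Iv.exp (Iv.pt d.cc)).hi ≤ d.b) &&
  decide ((gu D d.z d.zb + d.M + gv D d.z d.zb) * SC < d.cc * (SC + d.a)) &&
  certChk d.a d.q (gu D d.z d.zb) d.M d.c.t d.c.x1 d.c.x2 d.c.x3 d.c.s1 d.c.s2

/-- the interval for `1 - x + x e^u` -/
def ivB (D : List LD) (d : TB) : Iv :=
  Iv.add (Iv.sub (Iv.pt SC) (Iv.exp (Iv.pt (-d.l))))
    (Iv.mul (Iv.exp (Iv.pt (-d.l))) (Iv.exp (Iv.pt (gv D d.z d.zb))))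

/-- the check of a row of the second kind -/
def chkB (D : List LD) (d : TB) : Bool :=
  decide (d.z < D.length) && decide (0 < d.p) && decide (0 ≤ d.l) &&
  decide (0 ≤ gu D d.z d.zb) && decide (0 ≤ gv D d.z d.zb) &&
  Iv.ok (Iv.pt d.cc) && decide ((Iv.exp (Iv.pt d.cc)).hi ≤ d.b) &&
  Iv.ok (Iv.pt (-d.l)) && Iv.ok (Iv.pt (gv D d.z d.zb)) && Iv.ok (Iv.pt d.lw) &&
  decide ((ivB D d).hi ≤ (Iv.exp (Iv.pt d.lw)).lo) &&
  decide ((gu D d.z d.zb + d.lw) * SC + d.p * d.l < d.cc * SC)

theorem rowsA_ok : rowsA.all (chkA Pool.Agent.H95.Ramsey.fam) = true := by decide +kernel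

theorem rowsB_ok : rowsB.all (chkB Pool.Agent.H95.Ramsey.fam) = true := by decide +kernel

theorem exp_mul_nat_le {cc b : ℤ} (h : Real.exp (R cc) ≤ R b) {k : ℕ} {N : ℝ}
    (hN : (R b) ^ k ≤ N) : Real.exp (R cc * k) ≤ N := by
  refine le_trans ?_ hN
  rw [mul_comm, Real.exp_nat_mul]
  exact pow_le_pow_left₀ (Real.exp_pos _).le h k

theorem sparse_of_chkA (hT : T1P CertI) {D : List LD} (h : D.all (lineChk D) = true)
    {d : TA} (hd : chkA D d = true) : SparseGood (R d.p) (R d.b) := by
  unfold chkA at hd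
  simp only [Bool.and_eq_true, decide_eq_true_eq] at hd
  obtain ⟨⟨⟨⟨⟨⟨⟨⟨⟨⟨⟨⟨hz, ha⟩, ha1⟩, hM⟩, hL⟩, hq⟩, hq1⟩, hqp⟩, hcc⟩, hok⟩, hexp⟩, hk⟩, hc⟩ := hd
  have hg : Good (R (gu D d.z d.zb)) (R (gv D d.z d.zb)) :=
    good_of_check (bootstrapP_of_T1P hT) h (⟨d.z, hz⟩, d.zb)
  have hb : Real.exp (R d.cc) ≤ R d.b := ((mem_R d.cc).exp hok).ge_of hexp
  have hS := SC_posR
  have hkey : R (gu D d.z d.zb) + R d.M + R (gv D d.z d.zb) < R d.cc * (1 + R d.a) := by
    have h1 : R (gu D d.z d.zb) + R d.M + R (gv D d.z d.zb)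
        = ((gu D d.z d.zb + d.M + gv D d.z d.zb) * SC : ℤ) / ((SC : ℝ) * SC) := by
      unfold R; push_cast; field_simp
    have h2 : R d.cc * (1 + R d.a) = ((d.cc * (SC + d.a) : ℤ) : ℝ) / ((SC : ℝ) * SC) := by
      unfold R; push_cast; field_simp
    rw [h1, h2]
    apply div_lt_div_of_pos_right _ (by positivity)
    exact_mod_cast hk
  have hqp' : R d.q < 1 - R d.p := by
    have h1 := R_lt hqp
    rwa [R_sub, R_SC] at h1
  have hq1' : R d.q < 1 := by
    have h1 := R_lt hq1
    rwa [R_SC] at h1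
  obtain ⟨δ, hδ, k0, hk0⟩ := sparse_of_T1P hT (R_pos ha) (R_le_one ha1) (R_pos hq) hq1' hqp'
    (R_nonneg hL) (R_nonneg hM) (certChk_sound hc) hg (R_pos hcc) hkey
  exact ⟨δ, hδ, k0, fun k hk V _ _ G _ hN hd => hk0 k hk V G (exp_mul_nat_le hb hN) hd⟩

theorem sparse_of_chkB (hT : T1P CertI) {D : List LD} (h : D.all (lineChk D) = true)
    {d : TB} (hd : chkB D d = true) : SparseGood (R d.p) (R d.b) := by
  unfold chkB at hd
  simp only [Bool.and_eq_true, decide_eq_true_eq] at hd
  obtain ⟨⟨⟨⟨⟨⟨⟨⟨⟨⟨⟨hz, hp⟩, hl⟩, hv⟩, hu⟩, hok⟩, hexp⟩, hok1⟩, hok2⟩, hok3⟩, hW⟩, hk⟩ := hd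
  have hg : Good (R (gu D d.z d.zb)) (R (gv D d.z d.zb)) :=
    good_of_check (bootstrapP_of_T1P hT) h (⟨d.z, hz⟩, d.zb)
  have hb : Real.exp (R d.cc) ≤ R d.b := ((mem_R d.cc).exp hok).ge_of hexp
  have hS := SC_posR
  have hneg : R (-d.l) = -R d.l := by unfold R; push_cast; ring
  have hx : Mem (Real.exp (-R d.l)) (Iv.exp (Iv.pt (-d.l))) := by
    rw [← hneg]; exact (mem_R _).exp hok1
  have hU : Mem (Real.exp (R (gv D d.z d.zb))) (Iv.exp (Iv.pt (gv D d.z d.zb))) :=
    (mem_R _).exp hok2
  have hmem : Mem (1 - Real.exp (-R d.l) + Real.exp (-R d.l) * Real.exp (R (gv D d.z d.zb)))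
      (ivB D d) := (mem_one.sub hx).add (hx.mul hU)
  have hlw : Mem (Real.exp (R d.lw)) (Iv.exp (Iv.pt d.lw)) := (mem_R _).exp hok3
  have hle : 1 - Real.exp (-R d.l) + Real.exp (-R d.l) * Real.exp (R (gv D d.z d.zb))
      ≤ Real.exp (R d.lw) := (hmem.ge_of hW).trans (hlw.le_of le_rfl)
  have hx1 : Real.exp (-R d.l) ≤ 1 := by
    rw [Real.exp_le_one_iff]; linarith [R_nonneg hl]
  have hpos : 0 < 1 - Real.exp (-R d.l)
      + Real.exp (-R d.l) * Real.exp (R (gv D d.z d.zb)) := by
    have h1 := Real.exp_pos (-R d.l)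
    have h2 := Real.exp_pos (R (gv D d.z d.zb))
    have h3 : 0 < Real.exp (-R d.l) * Real.exp (R (gv D d.z d.zb)) := by positivity
    linarith
  have hlog : Real.log (1 - Real.exp (-R d.l)
      + Real.exp (-R d.l) * Real.exp (R (gv D d.z d.zb))) ≤ R d.lw := by
    rw [Real.log_le_iff_le_exp hpos]; exact hle
  have hkey : R (gu D d.z d.zb) + R d.lw + R d.p * R d.l < R d.cc := by
    have h1 : R (gu D d.z d.zb) + R d.lw + R d.p * R d.l
        = (((gu D d.z d.zb + d.lw) * SC + d.p * d.l : ℤ) : ℝ) / ((SC : ℝ) * SC) := by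
      unfold R; push_cast; field_simp
    have h2 : R d.cc = ((d.cc * SC : ℤ) : ℝ) / ((SC : ℝ) * SC) := by
      unfold R; push_cast; field_simp
    rw [h1, h2]
    apply div_lt_div_of_pos_right _ (by positivity)
    exact_mod_cast hk
  obtain ⟨δ, hδ, k0, hk0⟩ := sparse_of_good (c := R d.cc) hg (R_nonneg hu) (R_nonneg hv)
    (R_pos hp) (R_nonneg hl) (by linarith)
  exact ⟨δ, hδ, k0, fun k hk V _ _ G _ hN hd => hk0 k hk V G (exp_mul_nat_le hb hN) hd⟩

end Pool.Agent.H50.Ramsey
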